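import Pool.Agent.H3RD.Final

/-!
# MP_54f573_pr: the strong law for the dimension of random graph orders
-/

set_option autoImplicit false

namespace Pool.Agent.Results.MP_54f573_pr.StrongLaw

open MeasureTheory ProbabilityTheory Filter Topology
open scoped Classical

universe u

/-- `R` has a realiser of size `k`: it is the intersection of `k` linear orders, given by
injective height functions. -/
def HasRealiser {n : ℕ} (R : Fin n → Fin n → Prop) (k : ℕ) : Prop :=
  ∃ f : Fin k → Fin n → ℕ, (∀ i, Function.Injective (f i)) ∧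
    ∀ x y : Fin n, (R x y ↔ ∀ i, f i x ≤ f i y)

/-- The order dimension: the least size of a realiser. -/
noncomputable def dim {n : ℕ} (R : Fin n → Fin n → Prop) : ℕ := sInf {k | HasRealiser R k}

/-- The order generated on `{0, …, n - 1}` by the set of edges `E` (directed upwards). -/
def order {n : ℕ} (E : Fin n → Fin n → Prop) : Fin n → Fin n → Prop :=
  Relation.ReflTransGen (fun a b => a < b ∧ E a b)

/-- **Strong law for the dimension of random graph orders.**  Let `0 < p < 1`.

(1) For every `ε > 0` there is `η > 0` such that, for all large `n`, with probability at least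
`1 - n ^ (-η)` the random graph order on `n` points has a realiser of size at most
`(1 + ε) √(log n / log (1 / (1 - p)))` and every realiser has size at least
`(1 - ε) √(log n / log (1 / (1 - p)))` (the probability is written as in the frozen statement).

(2) For every family of independent events `A i j` (`i < j` in `ℕ`) of probability `p` on a
probability space, almost surely
`dim (P_n) / √(log n / log (1 / (1 - p))) → 1`, where `P_n` is the random graph order on
`{0, …, n - 1}` with the edges `i j` (`i < j`) such that `ω ∈ A i j`. -/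
theorem result :
    ∀ p : ℝ, 0 < p → p < 1 →
      (∀ ε : ℝ, 0 < ε → ∃ η : ℝ, 0 < η ∧ ∀ᶠ n : ℕ in atTop, 1 - (n : ℝ) ^ (-η) ≤
        ∑ E ∈ (((Finset.univ : Finset (Fin n × Fin n)).filter (fun e => e.1 < e.2)).powerset.filter
          (fun E =>
            (∃ k : ℕ,
              (k : ℝ) ≤ (1 + ε) * Real.sqrt (Real.log (n : ℝ) / Real.log (1 / (1 - p))) ∧
              ∃ f : Fin k → Fin n → ℕ, (∀ i, Function.Injective (f i)) ∧
                ∀ x y : Fin n,
                  (Relation.ReflTransGen (fun a b => (a, b) ∈ E) x y ↔ ∀ i, f i x ≤ f i y)) ∧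
            ∀ k : ℕ, (∃ f : Fin k → Fin n → ℕ, (∀ i, Function.Injective (f i)) ∧
                ∀ x y : Fin n,
                  (Relation.ReflTransGen (fun a b => (a, b) ∈ E) x y ↔ ∀ i, f i x ≤ f i y)) →
              (1 - ε) * Real.sqrt (Real.log (n : ℝ) / Real.log (1 / (1 - p))) ≤ k)),
        p ^ E.card * (1 - p) ^
          (((Finset.univ : Finset (Fin n × Fin n)).filter (fun e => e.1 < e.2)).card - E.card)) ∧
      ∀ (Ω : Type u) [MeasurableSpace Ω] (μ : Measure Ω) [IsProbabilityMeasure μ]
        (A : ℕ → ℕ → Set Ω), (∀ i j, i < j → MeasurableSet (A i j)) →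
        iIndepSet (fun e : {e : ℕ × ℕ // e.1 < e.2} => A e.1.1 e.1.2) μ →
        (∀ i j, i < j → μ (A i j) = ENNReal.ofReal p) →
        ∀ᵐ ω ∂μ, Tendsto (fun n : ℕ =>
          (dim (order (fun i j : Fin n => ω ∈ A i j)) : ℝ) /
            Real.sqrt (Real.log (n : ℝ) / Real.log (1 / (1 - p)))) atTop (𝓝 1) := by
  intro p hp hp1
  constructor
  · intro ε hε
    obtain ⟨η, hη, h⟩ := Pool.Agent.H3RD.Final.two_sided p hp hp1 ε hε
    refine ⟨η, hη, h.mono fun n hn => hn.trans (le_of_eq ?_)⟩
    unfold Pool.Agent.W830.RD.Pr
    apply Finset.sum_congr _ (fun _ _ => rfl)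
    ext E
    simp only [Finset.mem_filter]
    exact Iff.rfl
  · intro Ω _ μ _ A hA hind hμ
    exact Pool.Agent.H3RD.Final.strong_law hp hp1 hA hind hμ

end Pool.Agent.Results.MP_54f573_pr.StrongLaw
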